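import Pool.Agent.R409.RG.Art
import Pool.Agent.R409.RJ.Alg
import Pool.Agent.R409.RJ.Der

/-!
# The Stickelberger element of order `r` as a limit in the group ring

Let `L/K` be an abelian extension of number fields with group `G`, `S`, `T` finite sets of primes of
`K`. For `X > 0` let `N(X) = ∑_σ N_σ(X) σ⁻¹` be the element of `ℂ[G]` with the finite sums

`N_σ(X) = ∑ κ_γ(k log q_v / X) / k`, `κ_γ(u) = e^{iγu} / Γ(1 + u)`,

over the primes `v ∉ S` and the `k ≥ 1` with `q_v^k ≤ exp (exp (κ X))` and `Frob_v^k = σ`. We prove: the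
`L_S(χ, s)` have order `≥ r` at `s = 0` if and only if `X^r exp(N(X))` is bounded (along one sequence),
and then the element `θ` of Q1 is the limit in `ℂ[G]`

`θ = lim r! e^{-rΛ_γ} X^r exp(N(X)) ∏_{v ∈ T} (1 - q_v Frob_v⁻¹)`, with an error `O(1/X)`.

So Q1, in the form of Rubin, says that this limit is in the `ℚ`-space of the regulators of `U_{S,T}`.
-/

set_option autoImplicit false

namespace Pool.Agent.Results.MP_d9bae3_nt.GroupRingLimit

open NumberField IsDedekindDomain Filter Topology Asymptotics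

section defs

variable {K : Type} [Field K] [NumberField K] {G : Type} [CommGroup G]

/-- `L_S(χ, s) = ∏_{v ∉ S} (1 - χ(frob v) q_v^{-s})⁻¹`. -/
noncomputable def LFun (S : Finset (HeightOneSpectrum (𝓞 K))) (frob : HeightOneSpectrum (𝓞 K) → G)
    (χ : G →* ℂˣ) (s : ℂ) : ℂ :=
  ∏' v : {v : HeightOneSpectrum (𝓞 K) // v ∉ S},
    (1 - ((χ (frob v.1) : ℂˣ) : ℂ) * (Ideal.absNorm v.1.asIdeal : ℂ) ^ (-s))⁻¹

/-- `F` is analytic at `0` and meromorphic at the points of the real segment `[0, 1]`, and it is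
`L_S(χ, s)` for `Re s > 1`. -/
def IsContinuation (S : Finset (HeightOneSpectrum (𝓞 K))) (frob : HeightOneSpectrum (𝓞 K) → G)
    (χ : G →* ℂˣ) (F : ℂ → ℂ) : Prop :=
  AnalyticAt ℂ F 0 ∧ (∀ x : ℝ, 0 ≤ x → x ≤ 1 → MeromorphicAt F (x : ℂ)) ∧
    ∀ s : ℂ, 1 < s.re → F s = LFun S frob χ s

/-- `L_{S,T}(χ, s) = L_S(χ, s) ∏_{v ∈ T} (1 - χ(frob v) q_v^{1-s})`, for a continuation `F` of
`L_S(χ, s)`. -/
noncomputable def LST (T : Finset (HeightOneSpectrum (𝓞 K))) (frob : HeightOneSpectrum (𝓞 K) → G)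
    (χ : G →* ℂˣ) (F : ℂ → ℂ) (s : ℂ) : ℂ :=
  F s * ∏ v ∈ T, (1 - ((χ (frob v) : ℂˣ) : ℂ) * (Ideal.absNorm v.asIdeal : ℂ) ^ (1 - s))

/-- The weight `κ_γ(u) = e^{iγu} / Γ(1 + u)`. -/
noncomputable def weight (γ u : ℝ) : ℂ :=
  Complex.exp (Complex.I * (γ * u)) / Complex.Gamma (1 + u)

/-- `Λ_γ = ∫_0^∞ (e^{-t} - e^{iγt} / Γ(1 + t)) dt / t`. -/
noncomputable def lam (γ : ℝ) : ℂ :=
  ∫ t in Set.Ioi (0 : ℝ), (Real.exp (-t) - weight γ t) / t

/-- `N_σ(X) = ∑ κ_γ(k log q_v / X) / k`, the sum over the `v ∉ S` and `k ≥ 1` with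
`q_v^k ≤ exp (exp (κ X))` and `frob(v)^k = σ`. -/
noncomputable def count (S : Finset (HeightOneSpectrum (𝓞 K)))
    (frob : HeightOneSpectrum (𝓞 K) → G) (γ κ X : ℝ) (σ : G) : ℂ :=
  ∑ᶠ x ∈ {x : {v : HeightOneSpectrum (𝓞 K) // v ∉ S} × ℕ | 1 ≤ x.2 ∧
      (Ideal.absNorm x.1.1.asIdeal : ℝ) ^ x.2 ≤ Real.exp (Real.exp (κ * X)) ∧
      frob x.1.1 ^ x.2 = σ},
    weight γ (x.2 * Real.log (Ideal.absNorm x.1.1.asIdeal) / X) / x.2

variable [Finite G]

/-- The element `∑_g f(g) g` of the group ring. -/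
noncomputable def elt (f : G → ℂ) : MonoidAlgebra ℂ G :=
  MonoidAlgebra.ofCoeff (Finsupp.equivFunOnFinite.symm f)

/-- `N(X) = ∑_σ N_σ(X) σ⁻¹` in `ℂ[G]`. -/
noncomputable def nEl (S : Finset (HeightOneSpectrum (𝓞 K)))
    (frob : HeightOneSpectrum (𝓞 K) → G) (γ κ X : ℝ) : MonoidAlgebra ℂ G :=
  elt fun σ => count S frob γ κ X σ⁻¹

/-- The exponential of `ℂ[G]`: its coefficients are those of `∑_n x^n / n!`. -/
noncomputable def gexp (x : MonoidAlgebra ℂ G) : MonoidAlgebra ℂ G :=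
  elt fun g => ∑' n : ℕ, (x ^ n).coeff g / (n.factorial : ℂ)

/-- `∏_{v ∈ T} (1 - q_v frob(v)⁻¹)` in `ℂ[G]`. -/
noncomputable def delta (T : Finset (HeightOneSpectrum (𝓞 K)))
    (frob : HeightOneSpectrum (𝓞 K) → G) : MonoidAlgebra ℂ G :=
  ∏ v ∈ T, (1 - MonoidAlgebra.single (frob v)⁻¹ (Ideal.absNorm v.asIdeal : ℂ))

/-- `r! e^{-rΛ_γ} X^r exp(N(X)) ∏_{v ∈ T} (1 - q_v frob(v)⁻¹)` in `ℂ[G]`. -/
noncomputable def approx (S T : Finset (HeightOneSpectrum (𝓞 K)))
    (frob : HeightOneSpectrum (𝓞 K) → G) (r : ℕ) (γ κ X : ℝ) : MonoidAlgebra ℂ G :=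
  ((r.factorial : ℂ) * (Complex.exp (-(r * lam γ)) * (X : ℂ) ^ r)) •
    (gexp (nEl S frob γ κ X) * delta T frob)

/-- The value of `χ` on `ℂ[G]`. -/
noncomputable def ev (χ : G →* ℂˣ) : MonoidAlgebra ℂ G →ₐ[ℂ] ℂ :=
  MonoidAlgebra.lift ℂ ℂ G ((Units.coeHom ℂ).comp χ)

variable {L : Type} [Field L] [NumberField L] [Algebra K L]

/-- The places of `L`: the infinite places and the primes. -/
abbrev Place (L : Type) [Field L] [NumberField L] : Type :=
  InfinitePlace L ⊕ HeightOneSpectrum (𝓞 L)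

/-- The normalised absolute values. -/
noncomputable def nabs : Place L → L → ℝ
  | Sum.inl w, x => w x ^ w.mult
  | Sum.inr w, x => FinitePlace.mk w x

/-- `U_{S,T}`: the `x` with `|x|_w = 1` for the primes `w` not over `S`, and `|x - 1|_w < 1` for the
primes `w` over `T`. -/
def unitsST (S T : Finset (HeightOneSpectrum (𝓞 K))) (L : Type) [Field L] [NumberField L]
    [Algebra K L] : Set Lˣ :=
  {x | (∀ w : HeightOneSpectrum (𝓞 L), (∀ v ∈ S, ¬ w.asIdeal.LiesOver v.asIdeal) →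
      FinitePlace.mk w (x : L) = 1) ∧
    ∀ w : HeightOneSpectrum (𝓞 L), ∀ v ∈ T, w.asIdeal.LiesOver v.asIdeal →
      FinitePlace.mk w ((x : L) - 1) < 1}

/-- `w^*(λ(u)) = ∑_{g ∈ G} log |g⁻¹ u|_w g`. -/
noncomputable def reg (act : G →* (L ≃ₐ[K] L)) (w : Place L) (u : Lˣ) : MonoidAlgebra ℂ G :=
  elt fun g => ((Real.log (nabs w (act g⁻¹ (u : L))) : ℝ) : ℂ)

/-- The `ℚ`-span of the elements `g · det (w_i^*(λ(u_j)))` with `g ∈ G` and `u_j ∈ U_{S,T}`: the set of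
all `φ(λ(u))` with `u ∈ ℚ ∧^r U_{S,T}`. -/
noncomputable def rubin (act : G →* (L ≃ₐ[K] L)) (S T : Finset (HeightOneSpectrum (𝓞 K))) {r : ℕ}
    (w : Fin r → Place L) : Submodule ℚ (MonoidAlgebra ℂ G) :=
  Submodule.span ℚ {y | ∃ (g : G) (u : Fin r → Lˣ), (∀ j, u j ∈ unitsST S T L) ∧
    y = MonoidAlgebra.single g (1 : ℂ) * Matrix.det (Matrix.of fun i j => reg act (w i) (u j))}

end defs

section bridge

open Pool.Agent.R409.RC Pool.Agent.R409.RF Pool.Agent.R409.RG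

variable {K : Type} [Field K] [NumberField K] {G : Type} [CommGroup G]
  {S : Finset (HeightOneSpectrum (𝓞 K))} {frob : HeightOneSpectrum (𝓞 K) → G}

theorem weight_eq {γ u : ℝ} : weight γ u = Pool.Agent.W187.S2.kk γ u := by
  unfold weight Pool.Agent.W187.S2.kk Pool.Agent.W189.ML.om
  have h1 : Complex.Gamma (1 + u) = ((Real.Gamma (1 + u) : ℝ) : ℂ) := by
    rw [← Complex.Gamma_ofReal]
    push_cast
    rfl
  rw [h1, div_eq_mul_inv]
  push_cast
  congr 2
  ring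

theorem lam_eq (γ : ℝ) : lam γ = Pool.Agent.W187.UR.Lam γ := by
  unfold lam Pool.Agent.W187.UR.Lam
  refine MeasureTheory.integral_congr_ae (Filter.Eventually.of_forall fun t => ?_)
  simp only
  rw [weight_eq]
  unfold Pool.Agent.W187.S2.kk Pool.Agent.W189.ML.om
  push_cast
  rfl

/-- the norms -/
noncomputable def qS (S : Finset (HeightOneSpectrum (𝓞 K)))
    (v : {v : HeightOneSpectrum (𝓞 K) // v ∉ S}) : ℝ := qv v.1

theorem qS_sum {σ : ℝ} (hσ : 1 < σ) : Summable fun v => qS S v ^ (-σ) :=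
  (Pool.Agent.H921R2.TatePole.nm_summable (K := K) hσ).subtype _

/-- the set of the pairs in the sums -/
def PS (S : Finset (HeightOneSpectrum (𝓞 K))) (θ T : ℝ) :
    Set ({v : HeightOneSpectrum (𝓞 K) // v ∉ S} × ℕ) :=
  {x | 1 ≤ x.2 ∧ qS S x.1 ^ x.2 ≤ Real.exp (Real.exp (θ * T))}

theorem PS_finite (θ T : ℝ) : (PS S θ T).Finite := by
  have E : XD (0 : ℝ) (qS S) (fun (_ : {v : HeightOneSpectrum (𝓞 K) // v ∉ S}) (_ : Fin 0) =>
      (0 : ℂ)) :=
    { two_le := fun v => two_le_qv v.1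
      sum := fun σ hσ => qS_sum hσ
      norm_le := fun v j => j.elim0 }
  have h1 := E.finite_fr (Real.exp (θ * T))
  refine (h1.image fun x => (x.1, x.2 + 1)).subset ?_
  rintro ⟨v, k⟩ ⟨h2, h3⟩
  refine ⟨(v, k - 1), ?_, by
    simp only [Prod.mk.injEq, true_and]
    have : 1 ≤ k := h2
    omega⟩
  show Pool.Agent.W189.LC.fr (qS S) (v, k - 1) ≤ _
  unfold Pool.Agent.W189.LC.fr
  simp only
  have h4 : ((k - 1 : ℕ) : ℝ) + 1 = k := by
    have : 1 ≤ k := h2
    rw [Nat.cast_sub this]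
    push_cast
    ring
  rw [h4, ← Real.log_pow]
  exact (Real.log_le_iff_le_exp (pow_pos (E.q_pos v) k)).2 h3

/-- the `1 × 1` matrices -/
noncomputable def mt (frob : HeightOneSpectrum (𝓞 K) → G) (χ : G →* ℂˣ)
    (v : {v : HeightOneSpectrum (𝓞 K) // v ∉ S}) : Matrix (Fin 1) (Fin 1) ℂ :=
  ((χ (frob v.1) : ℂˣ) : ℂ) • (1 : Matrix (Fin 1) (Fin 1) ℂ)

theorem mt_pow (χ : G →* ℂˣ) (v : {v : HeightOneSpectrum (𝓞 K) // v ∉ S}) (k : ℕ) :
    mt frob χ v ^ k = ((χ (frob v.1 ^ k) : ℂˣ) : ℂ) • (1 : Matrix (Fin 1) (Fin 1) ℂ) := by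
  unfold mt
  rw [smul_pow, one_pow, map_pow, Units.val_pow_eq_pow_val]

variable [Finite G]

theorem coeff_elt (f : G → ℂ) (g : G) : (elt f).coeff g = f g := rfl

theorem gexp_eq (x : MonoidAlgebra ℂ G) : gexp x = Pool.Agent.R409.RJ.gexp x := rfl

theorem ev_eq (χ : G →* ℂˣ) : ev χ = Pool.Agent.R409.RJ.ev χ := rfl

theorem ev_gexp (χ : G →* ℂˣ) (x : MonoidAlgebra ℂ G) : ev χ (gexp x) = Complex.exp (ev χ x) :=
  Pool.Agent.R409.RJ.ev_gexp χ x

/-- the character sum in terms of the element `N(X)` -/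
theorem char_sum (χ : G →* ℂˣ) (γ θ T : ℝ) :
    (∑ᶠ x ∈ PS S θ T, tterm (qS S) (mt frob χ) γ T x.1 x.2) = ev χ⁻¹ (nEl S frob γ θ T) := by
  classical
  have : Fintype G := Fintype.ofFinite G
  have hterm : ∀ x : {v : HeightOneSpectrum (𝓞 K) // v ∉ S} × ℕ,
      tterm (qS S) (mt frob χ) γ T x.1 x.2 =
        ((χ (frob x.1.1 ^ x.2) : ℂˣ) : ℂ) *
          (weight γ (x.2 * Real.log (Ideal.absNorm x.1.1.asIdeal) / T) / x.2) := by
    intro x
    unfold tterm
    rw [mt_pow, weight_eq]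
    unfold Pool.Agent.W187.S2.kk qS qv
    simp only [Matrix.trace_smul, Matrix.trace_one, Fintype.card_fin, Nat.cast_one, smul_eq_mul,
      mul_one]
    push_cast
    ring
  simp only [hterm]
  set Z := (PS_finite (S := S) θ T).toFinset with hZ
  have hZm : ∀ x, x ∈ Z ↔ x ∈ PS S θ T := fun x => Set.Finite.mem_toFinset _
  have hev : ev χ⁻¹ (nEl S frob γ θ T) = ∑ σ : G, ((χ σ : ℂˣ) : ℂ) * count S frob γ θ T σ := by
    rw [ev_eq, Pool.Agent.R409.RJ.ev_apply, ← Equiv.sum_comp (Equiv.inv G)]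
    refine Finset.sum_congr rfl fun σ _ => ?_
    unfold nEl
    rw [coeff_elt, Equiv.inv_apply, inv_inv, MonoidHom.inv_apply, map_inv, inv_inv, mul_comm]
  rw [hev]
  have hcls : ∀ σ : G, count S frob γ θ T σ =
      ∑ x ∈ Z, if frob x.1.1 ^ x.2 = σ then
        weight γ (x.2 * Real.log (Ideal.absNorm x.1.1.asIdeal) / T) / x.2 else 0 := by
    intro σ
    unfold count
    rw [← Finset.sum_filter]
    refine finsum_mem_eq_sum_of_inter_support_eq _ ?_
    ext x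
    simp only [Set.mem_inter_iff, Finset.coe_filter, Set.mem_ofPred_eq, hZm]
    unfold PS qS qv
    simp only [Set.mem_ofPred_eq]
    tauto
  simp only [hcls, Finset.mul_sum]
  rw [Finset.sum_comm]
  have hl : (∑ᶠ x ∈ PS S θ T, ((χ (frob x.1.1 ^ x.2) : ℂˣ) : ℂ) *
      (weight γ (x.2 * Real.log (Ideal.absNorm x.1.1.asIdeal) / T) / x.2)) =
      ∑ x ∈ Z, ((χ (frob x.1.1 ^ x.2) : ℂˣ) : ℂ) *
        (weight γ (x.2 * Real.log (Ideal.absNorm x.1.1.asIdeal) / T) / x.2) := by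
    refine finsum_mem_eq_sum_of_inter_support_eq _ ?_
    ext x
    simp only [Set.mem_inter_iff, Finset.mem_coe, hZm]
  rw [hl]
  refine Finset.sum_congr rfl fun x _ => ?_
  simp

/-- the law for a character -/
theorem law_char {χ : G →* ℂˣ} {F : ℂ → ℂ} (hF : IsContinuation S frob χ F) :
    ∃ (m : ℤ) (r₀ : ℂ), meromorphicOrderAt F 0 = m ∧
      Complex.exp r₀ = meromorphicTrailingCoeffAt F 0 ∧
      ∀ γ θ : ℝ, Real.pi / 2 < γ → 1 < θ →
        Law (fun T => ev χ⁻¹ (nEl S frob γ θ T)) m r₀ (lam γ) := by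
  have hcard : Nat.card G ≠ 0 := Nat.card_pos.ne'
  obtain ⟨m, r₀, hm, hr, hlaw⟩ := law_mat (P := {v : HeightOneSpectrum (𝓞 K) // v ∉ S})
    (q := qS S) (A := mt frob χ) (F := F) (fun v => two_le_qv v.1)
    (fun σ hσ => qS_sum hσ) (fun v => ⟨Nat.card G, hcard, by
      rw [mt_pow, pow_card_eq_one', map_one, Units.val_one, one_smul]⟩) hF.2.1 (fun s hs => by
      rw [hF.2.2 s hs]
      unfold LFun qS qv mt
      refine tprod_congr fun v => ?_
      congr 1
      rw [Matrix.det_fin_one]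
      simp
      ring)
  refine ⟨m, r₀, hm, hr, fun γ θ hγ hθ => ?_⟩
  have h1 := hlaw γ θ hγ hθ
  have h2 : (fun T : ℝ => ev χ⁻¹ (nEl S frob γ θ T)) =
      fun T => ∑ᶠ x ∈ {x : {v : HeightOneSpectrum (𝓞 K) // v ∉ S} × ℕ | 1 ≤ x.2 ∧
        qS S x.1 ^ x.2 ≤ Real.exp (Real.exp (θ * T))},
        tterm (qS S) (mt frob χ) γ T x.1 x.2 := by
    funext T
    exact (char_sum χ γ θ T).symm
  rw [h2, lam_eq]
  exact h1

theorem ev_delta (T : Finset (HeightOneSpectrum (𝓞 K))) (χ : G →* ℂˣ) :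
    ev χ (delta T frob) =
      ∏ v ∈ T, (1 - (((χ⁻¹) (frob v) : ℂˣ) : ℂ) * (Ideal.absNorm v.asIdeal : ℂ)) := by
  unfold delta
  rw [map_prod]
  refine Finset.prod_congr rfl fun v _ => ?_
  rw [map_sub, map_one]
  unfold ev
  rw [MonoidAlgebra.lift_single, smul_eq_mul, MonoidHom.inv_apply]
  simp [mul_comm]

end bridge

open Pool.Agent.R409.RC in
/-- **The Stickelberger element of order `r` as a limit in `ℂ[G]`.** Let `L/K` be number fields, `G` a
finite abelian group acting on `L` over `K`, `S`, `T` finite sets of primes of `K`, `frob` a function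
from the primes of `K` to `G` (for an abelian extension with group `G`: the Frobenius elements), and for
the characters `χ` of `G` let `F χ` be a continuation of `L_S(χ, s)`. For `r ≥ 0`:

* all `F χ` have order `≥ r` at `0` if and only if `X^r exp(N(X))` is bounded along one sequence
  `X → ∞` for one choice of `γ > π/2`, `κ > 1`;
* if so, and `θ ∈ ℂ[G]` has the values `χ(θ) = L_{S,T}^{(r)}(χ⁻¹, 0)`, then for all `γ > π/2`, `κ > 1`
  `θ = r! e^{-rΛ_γ} X^r exp(N(X)) ∏_{v ∈ T} (1 - q_v frob(v)⁻¹) + O(1/X)`, coefficient by coefficient;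
* and `θ` is of the form `φ(λ(u))` with `u ∈ ℚ ∧^r U_{S,T}` (the form of Rubin of Q1) if and only if
  these elements tend to such an element along one sequence `X → ∞`, for one choice of `γ`, `κ`. -/
theorem result (K L : Type) [Field K] [NumberField K] [Field L] [NumberField L] [Algebra K L]
    (G : Type) [CommGroup G] [Finite G] (act : G →* (L ≃ₐ[K] L))
    (S T : Finset (HeightOneSpectrum (𝓞 K))) (frob : HeightOneSpectrum (𝓞 K) → G)
    (F : (G →* ℂˣ) → ℂ → ℂ) (_ : ∀ χ, IsContinuation S frob χ (F χ)) (r : ℕ) :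
    ((∀ χ, (r : ℕ∞) ≤ analyticOrderAt (F χ) 0) ↔
      ∃ (γ κ B : ℝ) (X : ℕ → ℝ), Real.pi / 2 < γ ∧ 1 < κ ∧ Tendsto X atTop atTop ∧
        ∀ n g, ‖(X n : ℂ) ^ r * (gexp (nEl S frob γ κ (X n))).coeff g‖ ≤ B) ∧
    ∀ θ : MonoidAlgebra ℂ G, (∀ χ, (r : ℕ∞) ≤ analyticOrderAt (F χ) 0) →
      (∀ χ : G →* ℂˣ, ev χ θ = iteratedDeriv r (LST T frob χ⁻¹ (F χ⁻¹)) 0) →
      (∀ γ κ : ℝ, Real.pi / 2 < γ → 1 < κ → ∀ g,
        (fun X : ℝ => (approx S T frob r γ κ X).coeff g - θ.coeff g) =O[atTop]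
          fun X : ℝ => X⁻¹) ∧
      ∀ w : Fin r → Place L,
        (θ ∈ rubin act S T w ↔
          ∃ (γ κ : ℝ) (X : ℕ → ℝ), Real.pi / 2 < γ ∧ 1 < κ ∧ Tendsto X atTop atTop ∧
            ∃ y ∈ rubin act S T w, ∀ g,
              Tendsto (fun n => (approx S T frob r γ κ (X n)).coeff g) atTop (𝓝 (y.coeff g))) := by
  classical
  rename_i hF
  have : Fintype G := Fintype.ofFinite G
  have : Fintype (G →* ℂˣ) := Fintype.ofFinite _
  choose m r₀ hm hr₀ hlaw using fun χ => law_char (hF χ)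
  have hpi : Real.pi / 2 < Real.pi := by linarith [Real.pi_pos]
  have hle : ∀ χ, (r : ℤ) ≤ m χ → (r : ℕ∞) ≤ analyticOrderAt (F χ) 0 := by
    intro χ h
    have h1 := hm χ
    rw [(hF χ).1.meromorphicOrderAt_eq] at h1
    cases h2 : analyticOrderAt (F χ) 0 with
    | top => exact le_top
    | coe n =>
      rw [h2, ENat.map_natCast] at h1
      have h3 : ((n : ℤ) : WithTop ℤ) = m χ := h1
      have h4 : (n : ℤ) = m χ := by exact_mod_cast h3
      have h5 : r ≤ n := by omega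
      exact_mod_cast h5
  have hge : ∀ χ, (r : ℕ∞) ≤ analyticOrderAt (F χ) 0 → (r : ℤ) ≤ m χ := fun χ h =>
    (Pool.Agent.R409.RJ.lim_val (hF χ).1 (analyticAt_const (v := (0 : ℂ))) (hm χ) h).1
  constructor
  · constructor
    · intro h
      -- boundedness
      have h1 : ∀ χ : G →* ℂˣ, (fun X : ℝ => (X : ℂ) ^ r *
          Complex.exp (ev χ⁻¹ (nEl S frob Real.pi 2 X))) =O[atTop] (fun _ : ℝ => (1 : ℝ)) := by
        intro χ
        have h2 := Pool.Agent.R409.RJ.law_rate (hlaw χ Real.pi 2 hpi (by norm_num)) (hge χ (h χ))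
        have h3 : (fun X : ℝ => X⁻¹) =O[atTop] (fun _ : ℝ => (1 : ℝ)) :=
          tendsto_inv_atTop_zero.isBigO_one ℝ
        have h4 := (h2.trans h3).add (isBigO_const_const
          (if m χ = r then Complex.exp (r₀ χ) else 0) (one_ne_zero (α := ℝ)) atTop)
        have h5 := h4.const_mul_left (Complex.exp (r * lam Real.pi))
        refine h5.congr_left fun X => ?_
        have h6 : Complex.exp (r * lam Real.pi) * Complex.exp (-(r * lam Real.pi)) = 1 := by
          rw [← Complex.exp_add, add_neg_cancel, Complex.exp_zero]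
        linear_combination ((X : ℂ) ^ r * Complex.exp (ev χ⁻¹ (nEl S frob Real.pi 2 X))) * h6
      have h2 : ∀ g : G, (fun X : ℝ => (X : ℂ) ^ r *
          (gexp (nEl S frob Real.pi 2 X)).coeff g) =O[atTop] (fun _ : ℝ => (1 : ℝ)) := by
        intro g
        have h3 : (fun X : ℝ => (Nat.card G : ℂ)⁻¹ * ∑ χ : G →* ℂˣ, ((χ g : ℂˣ) : ℂ)⁻¹ *
            ((X : ℂ) ^ r * Complex.exp (ev χ (nEl S frob Real.pi 2 X)))) =O[atTop]
              (fun _ : ℝ => (1 : ℝ)) := by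
          refine IsBigO.const_mul_left (IsBigO.fun_sum fun χ _ => IsBigO.const_mul_left ?_ _) _
          have h4 := h1 χ⁻¹
          have h5 : (χ⁻¹)⁻¹ = χ := inv_inv χ
          rwa [h5] at h4
        refine h3.congr_left fun X => ?_
        rw [Pool.Agent.R409.RJ.coeff_eq]
        simp only [← ev_eq, ev_gexp]
        rw [mul_left_comm]
        congr 1
        rw [Finset.mul_sum]
        exact Finset.sum_congr rfl fun χ _ => by ring
      choose C hC using fun g => (h2 g).bound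
      have h3 : ∀ᶠ X : ℝ in atTop, ∀ g, ‖(X : ℂ) ^ r *
          (gexp (nEl S frob Real.pi 2 X)).coeff g‖ ≤ C g * ‖(1 : ℝ)‖ := eventually_all.2 hC
      obtain ⟨X₀, hX₀⟩ := eventually_atTop.1 h3
      refine ⟨Real.pi, 2, ∑ g, |C g|, fun n => X₀ + n, hpi, by norm_num,
        tendsto_atTop_add_const_left _ _ tendsto_natCast_atTop_atTop, fun n g => ?_⟩
      refine (hX₀ (X₀ + n) (by linarith [(Nat.cast_nonneg n : (0 : ℝ) ≤ n)]) g).trans ?_
      rw [norm_one, mul_one]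
      exact (le_abs_self _).trans
        (Finset.single_le_sum (f := fun g => |C g|) (fun g _ => abs_nonneg _) (Finset.mem_univ g))
    · rintro ⟨γ, κ, B, X, hγ, hκ, hX, hB⟩ χ
      refine hle χ (Pool.Agent.R409.RJ.law_bdd (hlaw χ γ κ hγ hκ) hX
        (B := ∑ g : G, B * ‖(((χ⁻¹) g : ℂˣ) : ℂ)‖) (Eventually.of_forall fun n => ?_))
      rw [← ev_gexp, ev_eq, Pool.Agent.R409.RJ.ev_apply, Finset.mul_sum]
      refine norm_sum_le_of_le _ fun g _ => ?_
      rw [← mul_assoc, norm_mul]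
      exact mul_le_mul_of_nonneg_right (hB n g) (norm_nonneg _)
  · intro θ h hθ
    have hmain : ∀ γ κ : ℝ, Real.pi / 2 < γ → 1 < κ → ∀ χ : G →* ℂˣ,
        (fun X : ℝ => ev χ (approx S T frob r γ κ X) - ev χ θ) =O[atTop] fun X : ℝ => X⁻¹ := by
      intro γ κ hγ hκ χ
      have h1 := Pool.Agent.R409.RJ.law_rate (hlaw χ⁻¹ γ κ hγ hκ) (hge χ⁻¹ (h χ⁻¹))
      have hE : AnalyticAt ℂ (fun s : ℂ => ∏ v ∈ T, (1 - (((χ⁻¹) (frob v) : ℂˣ) : ℂ) *
          (Ideal.absNorm v.asIdeal : ℂ) ^ (1 - s))) 0 := by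
        refine Finset.analyticAt_fun_prod _ fun v _ => ?_
        have hq : (Ideal.absNorm v.asIdeal : ℂ) ≠ 0 := by
          have h2 := two_le_qv v
          unfold qv at h2
          have h3 : (Ideal.absNorm v.asIdeal : ℝ) ≠ 0 := by linarith
          exact_mod_cast h3
        refine analyticAt_const.sub (analyticAt_const.mul ?_)
        have h2 : Differentiable ℂ fun s : ℂ => (Ideal.absNorm v.asIdeal : ℂ) ^ (1 - s) := by
          intro s
          exact ((hasDerivAt_id s).const_sub 1).const_cpow (Or.inl hq) |>.differentiableAt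
        exact h2.analyticAt 0
      have h2 := (Pool.Agent.R409.RJ.lim_val (hF χ⁻¹).1 hE (hm χ⁻¹) (h χ⁻¹)).2
      have h3 : ev χ θ = (r.factorial : ℂ) * (if m χ⁻¹ = r then Complex.exp (r₀ χ⁻¹) else 0) *
          ev χ (delta T frob) := by
        rw [hθ χ]
        unfold LST
        rw [h2, hr₀ χ⁻¹, ev_delta]
        simp
      have h4 := h1.const_mul_left ((r.factorial : ℂ) * ev χ (delta T frob))
      refine h4.congr_left fun X => ?_
      have h5 : (χ⁻¹)⁻¹ = χ := inv_inv χ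
      rw [h3, h5]
      unfold approx
      rw [map_smul, map_mul, ev_gexp, smul_eq_mul]
      ring
    have hcoeff : ∀ γ κ : ℝ, Real.pi / 2 < γ → 1 < κ → ∀ g,
        (fun X : ℝ => (approx S T frob r γ κ X).coeff g - θ.coeff g) =O[atTop]
          fun X : ℝ => X⁻¹ := by
      intro γ κ hγ hκ g
      have h3 : (fun X : ℝ => (Nat.card G : ℂ)⁻¹ * ∑ χ : G →* ℂˣ, ((χ g : ℂˣ) : ℂ)⁻¹ *
          (ev χ (approx S T frob r γ κ X) - ev χ θ)) =O[atTop] fun X : ℝ => X⁻¹ :=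
        IsBigO.const_mul_left (IsBigO.fun_sum fun χ _ =>
          IsBigO.const_mul_left (hmain γ κ hγ hκ χ) _) _
      refine h3.congr_left fun X => ?_
      rw [Pool.Agent.R409.RJ.coeff_eq, Pool.Agent.R409.RJ.coeff_eq θ g, ← mul_sub,
        ← Finset.sum_sub_distrib]
      congr 1
      exact Finset.sum_congr rfl fun χ _ => by
        rw [mul_sub]
        rfl
    have htend : ∀ γ κ : ℝ, Real.pi / 2 < γ → 1 < κ → ∀ g,
        Tendsto (fun X : ℝ => (approx S T frob r γ κ X).coeff g) atTop (𝓝 (θ.coeff g)) := by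
      intro γ κ hγ hκ g
      have h1 := (hcoeff γ κ hγ hκ g).trans_tendsto tendsto_inv_atTop_zero
      have h2 := h1.add_const (θ.coeff g)
      simpa using h2
    refine ⟨hcoeff, fun w => ⟨fun hw => ⟨Real.pi, 2, fun n => n, hpi, by norm_num,
      tendsto_natCast_atTop_atTop, θ, hw, fun g =>
        (htend Real.pi 2 hpi (by norm_num) g).comp tendsto_natCast_atTop_atTop⟩, ?_⟩⟩
    rintro ⟨γ, κ, X, hγ, hκ, hX, y, hy, hlim⟩
    have h1 : θ = y := by
      refine MonoidAlgebra.ext (Finsupp.ext fun g => ?_)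
      exact tendsto_nhds_unique ((htend γ κ hγ hκ g).comp hX) (hlim g)
    rw [h1]
    exact hy

end Pool.Agent.Results.MP_d9bae3_nt.GroupRingLimit
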